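import Mathlib

namespace Pool.Agent.Results.MP_177738_an.Q1

open Set

/-- Euclidean `n`-space. -/
abbrev E (n : ℕ) : Type := EuclideanSpace ℝ (Fin n)

/-- The Pareto solution set `Sol(F, K)`. -/
def Sol {n m : ℕ} (F : Fin m → E n → E n) (K : Set (E n)) : Set (E n) :=
  {x ∈ K | ∀ y ∈ K, ¬ ((∀ l, 0 ≤ inner ℝ (F l x) (x - y)) ∧ (fun l => inner ℝ (F l x) (x - y)) ≠ 0)}

/-- `G` is monotone on `K`. -/
def MonoOn {n : ℕ} (G : E n → E n) (K : Set (E n)) : Prop :=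
  ∀ x ∈ K, ∀ y ∈ K, 0 ≤ inner ℝ (G y - G x) (y - x)

def K0 : Set (E 4) := {p | p 2 ^ 2 ≤ p 3}

noncomputable def F0 : Fin 2 → E 4 → E 4 :=
  ![fun p => !₂[0, 2 * p 1, 0, 1], fun p => !₂[-(p 1 + p 2), p 0 - 1 + 2 * p 1, p 0 + 1, 1]]

lemma mem (p : E 4) : p ∈ Sol F0 K0 ↔ p 2 ^ 2 ≤ p 3 ∧ ∀ a b c d : ℝ, (p 2 + c) ^ 2 ≤ p 3 + d →
    2 * p 1 * b + d ≤ 0 → -(p 1 + p 2) * a + (p 0 - 1 + 2 * p 1) * b + (p 0 + 1) * c + d ≤ 0 →
    2 * p 1 * b + d = 0 ∧ -(p 1 + p 2) * a + (p 0 - 1 + 2 * p 1) * b + (p 0 + 1) * c + d = 0 := by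
  refine and_congr Iff.rfl ⟨fun h a b c d k u v => ?_, fun h y k ⟨u, v⟩ => v ?_⟩
  · have := h (p + !₂[a, b, c, d]) (by simpa [K0] using k)
    simp [F0, Fin.forall_fin_two, funext_iff, EuclideanSpace.inner_eq_star_dotProduct, dotProduct,
      Fin.sum_univ_four] at this
    obtain ⟨r, s⟩ := this (by linarith) (by linarith)
    constructor <;> linarith
  · simp [F0, Fin.forall_fin_two, funext_iff, EuclideanSpace.inner_eq_star_dotProduct, dotProduct,
      Fin.sum_univ_four] at u ⊢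
    obtain ⟨r, s⟩ := h (y 0 - p 0) (y 1 - p 1) (y 2 - p 2) (y 3 - p 3) (by simpa [K0] using k)
      (by linarith [u.1]) (by linarith [u.2])
    constructor <;> linarith

lemma shape {p : E 4} (h : p ∈ Sol F0 K0) : (p 0 = 0 ∨ p 0 = 1) ∧ |p 1| ≤ 1 ∧ p 2 = -p 1 ∧ p 3 = p 1 ^ 2 := by
  obtain ⟨k, h⟩ := (mem p).1 h
  have e1 : p 2 = -p 1 := by
    have := (h (p 1 + p 2) 0 0 0 (by simpa using k) (by simp) (by nlinarith [sq_nonneg (p 1 + p 2)])).2
    nlinarith [sq_nonneg (p 1 + p 2)]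
  have e2 : p 3 = p 1 ^ 2 := by
    have := (h 0 0 0 (p 2 ^ 2 - p 3) (by simp) (by linarith) (by linarith)).1
    rw [e1] at this; linarith
  rw [e1, e2] at h
  generalize p 0 = x at *
  generalize p 1 = y at *
  by_cases hy : y = 0
  · subst hy
    have := (h 0 (1 - x) 0 0 (by simp) (by simp) (by nlinarith [sq_nonneg (x - 1)])).2
    exact ⟨.inr (by nlinarith [sq_nonneg (x - 1)]), by simp, e1, e2⟩
  have g (c : ℝ) : 0 ≤ 2 * x * c - (x - 1) * c ^ 2 / (2 * y) := by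
    by_contra n
    have e : 2 * y * (c - c ^ 2 / (2 * y)) = 2 * y * c - c ^ 2 := by field_simp
    have e' : (x - 1) * c ^ 2 / (2 * y) = (x - 1) * (c ^ 2 / (2 * y)) := by ring
    have := (h 0 (c - c ^ 2 / (2 * y)) c (c ^ 2 - 2 * y * c) (by nlinarith) (by linarith) (by nlinarith)).2
    nlinarith
  have hx : x = 0 := by
    by_contra n
    set M := |(x - 1) / (2 * y)| + 1 with hM
    have M0 : 0 < M := by positivity
    have := g (-x / M)
    have e : 2 * x * (-x / M) - (x - 1) * (-x / M) ^ 2 / (2 * y) =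
      x ^ 2 / M ^ 2 * (-2 * M - (x - 1) / (2 * y)) := by field_simp
    have := neg_abs_le ((x - 1) / (2 * y))
    have : 0 < x ^ 2 / M ^ 2 := by positivity
    nlinarith [abs_nonneg ((x - 1) / (2 * y))]
  subst hx
  have y0 : 0 < y := by
    have := g 1
    by_contra n
    have : (0 - 1) * 1 ^ 2 / (2 * y) > 0 := div_pos_of_neg_of_neg (by norm_num) (by
      have := lt_of_le_of_ne (not_lt.1 n) hy; linarith)
    linarith
  refine ⟨.inl rfl, abs_le.2 ⟨by linarith, ?_⟩, e1, e2⟩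
  by_contra n
  have := (h 0 (-1) 0 0 (by simp) (by linarith) (by linarith)).1
  linarith

theorem result : ∃ (n m : ℕ) (K : Set (E n)) (F : Fin m → E n → E n), 1 ≤ n ∧ 1 ≤ m ∧
    K.Nonempty ∧ IsClosed K ∧ Convex ℝ K ∧ (∀ l, Continuous (F l) ∧ MonoOn (F l) K) ∧
    ¬ IsPreconnected (Sol F K) ∧ Bornology.IsBounded (Sol F K) := by
  refine ⟨4, 2, K0, F0, by norm_num, by norm_num, ⟨0, by simp [K0]⟩,
    isClosed_le (by fun_prop) (by fun_prop), ?_, ?_, fun h => ?_, ?_⟩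
  · intro x hx y hy a b ha hb hab
    simp only [K0, mem_setOf_eq, PiLp.add_apply, PiLp.smul_apply, smul_eq_mul] at *
    obtain rfl : b = 1 - a := by linarith
    nlinarith [mul_nonneg ha hb, sq_nonneg (x 2 - y 2), mul_nonneg ha (sub_nonneg.2 hx), mul_nonneg hb (sub_nonneg.2 hy)]
  · intro l
    fin_cases l <;> refine ⟨by simp [F0]; fun_prop, fun x _ y _ => ?_⟩ <;>
      simp [F0, EuclideanSpace.inner_eq_star_dotProduct, dotProduct, Fin.sum_univ_four] <;>
      nlinarith [sq_nonneg (y 1 - x 1)]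
  · have a : (!₂[1, 0, 0, 0] : E 4) ∈ Sol F0 K0 := (mem _).2 ⟨by simp, fun a b c d k u v => by
      simp at k u v ⊢
      have : c = 0 := by nlinarith
      subst this; simp at *; linarith⟩
    have b : (!₂[0, 1 / 4, -1 / 4, 1 / 16] : E 4) ∈ Sol F0 K0 := (mem _).2 ⟨by simp; norm_num,
      fun a b c d k u v => by
        simp at k u v ⊢
        constructor <;> nlinarith [sq_nonneg c]⟩
    obtain ⟨p, hp, e⟩ := h.intermediate_value b a (f := fun p => p 0) (by fun_prop)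
      (show (1 / 2 : ℝ) ∈ _ by simp; norm_num)
    rcases (shape hp).1 with z | z <;> simp [z] at e <;> norm_num at e
  · refine (Metric.isBounded_closedBall (x := 0) (r := 2)).subset fun p hp => ?_
    obtain ⟨a, b, c, d⟩ := shape hp
    rw [mem_closedBall_zero_iff, EuclideanSpace.norm_eq, Real.sqrt_le_iff, Fin.sum_univ_four]
    simp only [Real.norm_eq_abs, sq_abs, c, d]
    have : p 1 ^ 2 ≤ 1 := by rw [← sq_abs]; nlinarith [abs_nonneg (p 1)]
    refine ⟨by norm_num, ?_⟩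
    rcases a with a | a <;> rw [a] <;> nlinarith [sq_nonneg (p 1)]

end Pool.Agent.Results.MP_177738_an.Q1
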